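import Pool.Agent.helper90.CL.Signed

/-!
# Finiteness of the cycles of the 3x+1 map for almost all lengths

Let `θ = log 2 / log 3`. For every `η > 0` the 3x+1 map on the integers has only finitely many
cycles of positive integers whose length `p` satisfies `{p θ} ≥ η`, and only finitely many cycles
of negative integers whose length `p` satisfies `{-p θ} ≥ η`; their number is at most `B / η` with
an absolute constant `B`.
-/

set_option autoImplicit false

namespace Pool.Agent.Results.MP_5bd76e_nt.AlmostAllLengths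

/-- The 3x+1 map on the integers. -/
def T (n : ℤ) : ℤ := if n % 2 = 0 then n / 2 else (3 * n + 1) / 2

/-- `c` is a cycle of `T`: the orbit of an integer `n` with `T^k n = n` for some `k ≥ 1`.
Its length is its number of elements `c.ncard`. -/
def IsCycle (c : Set ℤ) : Prop :=
  ∃ n : ℤ, (∃ k : ℕ, 1 ≤ k ∧ T^[k] n = n) ∧ c = {m : ℤ | ∃ i : ℕ, T^[i] n = m}

theorem T_eq : T = Pool.Agent.helper62.Col.T := rfl

theorem isCycle_iff (c : Set ℤ) : IsCycle c ↔ Pool.Agent.helper90.CL.IsCycle c := by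
  unfold IsCycle Pool.Agent.helper90.CL.IsCycle
  rw [T_eq]
  constructor
  · rintro ⟨n, ⟨k, hk, h⟩, rfl⟩
    exact ⟨n, ⟨k, by omega, h⟩, rfl⟩
  · rintro ⟨n, ⟨k, hk, h⟩, rfl⟩
    exact ⟨n, ⟨k, by omega, h⟩, rfl⟩

open Pool.Agent.helper90.CL in
/-- There is an absolute constant `B` such that for every `η > 0` at most `B / η` cycles of
positive integers have a length `p` with `{p log 2 / log 3} ≥ η`, and at most `B / η` cycles of
negative integers have a length `p` with `{-p log 2 / log 3} ≥ η`. -/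
theorem result :
    ∃ B : ℝ, ∀ η : ℝ, 0 < η →
      ({c : Set ℤ | IsCycle c ∧ (∀ m ∈ c, 0 < m) ∧
          η ≤ Int.fract ((c.ncard : ℝ) * (Real.log 2 / Real.log 3))}.Finite ∧
        ({c : Set ℤ | IsCycle c ∧ (∀ m ∈ c, 0 < m) ∧
          η ≤ Int.fract ((c.ncard : ℝ) * (Real.log 2 / Real.log 3))}.ncard : ℝ) ≤ B / η) ∧
      ({c : Set ℤ | IsCycle c ∧ (∀ m ∈ c, m < 0) ∧
          η ≤ Int.fract (-((c.ncard : ℝ) * (Real.log 2 / Real.log 3)))}.Finite ∧
        ({c : Set ℤ | IsCycle c ∧ (∀ m ∈ c, m < 0) ∧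
          η ≤ Int.fract (-((c.ncard : ℝ) * (Real.log 2 / Real.log 3)))}.ncard : ℝ) ≤ B / η) := by
  have hC : IsCycle = Pool.Agent.helper90.CL.IsCycle := by
    funext c
    exact propext (isCycle_iff c)
  rw [hC]
  obtain ⟨B, _, h⟩ := few_of_le
  refine ⟨B, fun η hη => ⟨?_, ?_⟩⟩
  · exact h (fun c => ∀ m ∈ c, 0 < m)
      (fun c => Int.fract ((c.ncard : ℝ) * (Real.log 2 / Real.log 3)))
      (fun c hc hP => (signed hc).1 hP) η hη
  · exact h (fun c => ∀ m ∈ c, m < 0)
      (fun c => Int.fract (-((c.ncard : ℝ) * (Real.log 2 / Real.log 3))))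
      (fun c hc hP => (signed hc).2 hP) η hη

end Pool.Agent.Results.MP_5bd76e_nt.AlmostAllLengths
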