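import Pool.Agent.helper18.VZ.MinN

/-!
# MP_5bd76e : the basins of the cycles of the 3x+1 map on the integers have positive natural densities, which add up to one;
all cycles but `N` together attract at most the proportion `C / N ^ b` of the integers

`T` is the 3x+1 map on `ℤ`; `s = 1` (positive integers) or `s = -1` (negative integers).
-/

set_option autoImplicit false

namespace Pool.Agent.Results.MP_5bd76e_nt.Basins

open Filter Topology

/-- The 3x+1 map on the integers. -/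
def T (n : ℤ) : ℤ := if n % 2 = 0 then n / 2 else (3 * n + 1) / 2

/-- `c` is a cycle of `T`: the orbit of an integer `n` with `T^k n = n` for some `k ≥ 1`. -/
def IsCycle (c : Set ℤ) : Prop :=
  ∃ n : ℤ, (∃ k : ℕ, 1 ≤ k ∧ T^[k] n = n) ∧ c = {m : ℤ | ∃ i : ℕ, T^[i] n = m}

/-- The basin of `c`: the integers whose trajectory enters `c`. -/
def Basin (c : Set ℤ) : Set ℤ := {n : ℤ | ∃ k : ℕ, T^[k] n ∈ c}

/-- The predecessors of `m`: the integers whose trajectory meets `m`. -/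
def Pred (m : ℤ) : Set ℤ := {n : ℤ | ∃ k : ℕ, T^[k] n = m}

/-- The integers with an unbounded trajectory. -/
def Unbounded : Set ℤ := {n : ℤ | ∀ B : ℤ, ∃ k : ℕ, B < |T^[k] n|}

/-- The integers for which `m` is the least absolute value in the trajectory. -/
def MinIs (m : ℕ) : Set ℤ := {n : ℤ | (∃ k : ℕ, |T^[k] n| = m) ∧ ∀ k : ℕ, (m : ℤ) ≤ |T^[k] n|}

/-- `S` is invariant: `n` is in `S` if and only if `T n` is in `S`. -/
def Invariant (S : Set ℤ) : Prop := ∀ n, T n ∈ S ↔ n ∈ S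

/-- `S` is invariant outside a finite set. -/
def AlmostInvariant (S : Set ℤ) : Prop := ∃ N : ℕ, ∀ n : ℤ, (N : ℤ) ≤ |n| → (T n ∈ S ↔ n ∈ S)

open Classical in
/-- The number of the integers `n`, `1 ≤ n ≤ X`, with `s n ∈ S` (`s = 1` or `s = -1`). -/
noncomputable def count (s : ℤ) (S : Set ℤ) (X : ℕ) : ℕ :=
  ((Finset.Icc 1 X).filter (fun n : ℕ => s * (n : ℤ) ∈ S)).card

/-- The integers whose trajectory enters a cycle which is not in `F`. -/
def Others (F : Finset (Set ℤ)) : Set ℤ := {n : ℤ | ∃ c : Set ℤ, IsCycle c ∧ c ∉ F ∧ n ∈ Basin c}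

theorem result :
    -- natural densities `d s S`, absolute constants `a`, `b`, `C`
    ∃ (d : ℤ → Set ℤ → ℝ) (a b C : ℝ), 0 < a ∧ 0 < b ∧ 0 < C ∧
      (∀ s : ℤ, (s = 1 ∨ s = -1) →
        (∀ S, AlmostInvariant S → Tendsto (fun X : ℕ => (count s S X : ℝ) / X) atTop (𝓝 (d s S))) ∧
        (∀ (ι : Type) (S : ι → Set ℤ), (∀ i, Invariant (S i)) → (∀ i j, i ≠ j → Disjoint (S i) (S j)) →
          HasSum (fun i => d s (S i)) (d s (⋃ i, S i))) ∧
        (∀ S, Invariant S → (∃ m ∈ S, 0 < s * m) → 0 < d s S) ∧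
        (∀ S, Invariant S → d s S = 1 → ∀ n : ℤ, 0 < s * n → n ∈ S) ∧
        (∀ c : Set ℤ, IsCycle c → c.Finite ∧ Invariant (Basin c)) ∧ Invariant Unbounded ∧
        (∀ m : ℤ, AlmostInvariant (Pred m)) ∧
        (∀ m : ℤ, 0 < s * m → ¬ (3 : ℤ) ∣ m → a / |(m : ℝ)| ≤ d s (Pred m)) ∧
        (∀ c : Finset ℤ, IsCycle c → (∀ m ∈ c, 0 < s * m) →
          a * ∑ x ∈ c, 1 / |(x : ℝ)| ≤ d s (Basin c) ∧
          a * |(c.card : ℝ) * Real.log 2 - ((c.filter (fun x => x % 2 = 1)).card : ℝ) * Real.log 3| ≤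
            d s (Basin c)) ∧
        HasSum (fun c : {c : Set ℤ // IsCycle c} => d s (Basin c.1)) (1 - d s Unbounded) ∧
        -- the least absolute value in the trajectory has a limit law
        (∀ m : ℕ, AlmostInvariant (MinIs m)) ∧ HasSum (fun m : ℕ => d s (MinIs m)) 1 ∧
        -- the trajectories come down: power rate, uniformly in `X` and `Z`
        (∀ (X : ℕ) (Z : ℝ), 1 ≤ X → 1 ≤ Z →
          (count s {n | ¬ ∃ k : ℕ, (k : ℝ) ≤ 7 * Real.log |(n : ℝ)| ∧ |((T^[k] n : ℤ) : ℝ)| < Z} X : ℝ) ≤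
            C * X / Z ^ b)) ∧
      -- all cycles but `N` together
      (∀ N : ℕ, 1 ≤ N → ∃ F : Finset (Set ℤ), F.card ≤ N ∧ Invariant (Others F) ∧
        ∀ s : ℤ, (s = 1 ∨ s = -1) → d s (Others F) ≤ C / (N : ℝ) ^ b) ∧
      ({c : Set ℤ | IsCycle c}.Finite ↔ ∃ ε : ℝ, 0 < ε ∧ ∀ c : Set ℤ, IsCycle c → c ≠ {0} →
        ε ≤ d 1 (Basin c) + d (-1) (Basin c)) := by
  obtain ⟨a1, ha1, hp⟩ := Pool.Agent.helper18.BAS.dens_pred
  obtain ⟨a2, ha2, hc⟩ := Pool.Agent.helper18.BAS.dens_cycle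
  obtain ⟨C, b, hC, hb, hV⟩ := Pool.Agent.helper18.VZ.V_both
  have nd := Pool.Agent.helper18.BAS.nd_all
  have hCb : C ≤ C * 2 ^ b := by
    have : (1 : ℝ) ≤ 2 ^ b := Real.one_le_rpow (by norm_num) hb.le
    nlinarith
  refine ⟨Pool.Agent.helper18.BAS.dens, min a1 a2, b, C * 2 ^ b, lt_min ha1 ha2, hb, by positivity, fun s hs =>
    ⟨fun S hS => ?_, ?_, fun S hS => ?_, fun S hS h1 n hn => ?_, fun c hcc => ⟨?_, ?_⟩, ?_, fun m => ?_, fun m hsm h3 => ?_,
    fun c hcc hsc => ⟨?_, ?_⟩, ?_, fun m => ?_, ?_, fun X Z hX hZ => ?_⟩, fun N hN => ?_, ?_⟩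
  · exact Pool.Agent.helper18.BAS.tendsto_dens' hs hS
  · intro ι S hS hd
    exact Pool.Agent.helper18.BAS.dens_hasSum nd hs hS fun i j hij => hd i j hij
  · rintro ⟨m, hm, hsm⟩
    exact Pool.Agent.helper18.BAS.dens_pos nd hs hS hm hsm
  · exact Pool.Agent.helper18.BAS.all_of_almost hs hS h1 hn
  · exact Pool.Agent.helper18.BAS.cycle_finite hcc
  · exact Pool.Agent.helper18.BAS.inv_basin hcc
  · exact Pool.Agent.helper18.BAS.inv_unb
  · exact Pool.Agent.helper18.BAS.ainv_pred m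
  · exact (div_le_div_of_nonneg_right (min_le_left _ _) (abs_nonneg _)).trans (hp s m hs hsm h3)
  · exact (mul_le_mul_of_nonneg_right (min_le_right _ _)
      (Finset.sum_nonneg fun x _ => by positivity)).trans (hc s c hs hcc hsc)
  · have h0 : (0 : ℤ) ∉ c := fun h => by
      have := hsc 0 h
      simp at this
    refine le_trans ?_ (hc s c hs hcc hsc)
    exact (mul_le_mul_of_nonneg_right (min_le_right _ _) (abs_nonneg _)).trans
      (mul_le_mul_of_nonneg_left (Pool.Agent.helper31.UNI.cyc_log hcc h0) ha2.le)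
  · exact Pool.Agent.helper18.BAS.cycles_hasSum nd hs
  · exact Pool.Agent.helper18.VZ.ainv_M m
  · exact Pool.Agent.helper18.VZ.min_hasSum hb hV hs
  · refine (hV s hs X Z hX hZ).trans ?_
    have hZ0 : 0 < Z := by linarith
    have hZb : 0 < Z ^ b := Real.rpow_pos_of_pos hZ0 _
    exact div_le_div_of_nonneg_right (mul_le_mul_of_nonneg_right hCb (Nat.cast_nonneg _)) hZb.le
  · obtain ⟨F, hF, h⟩ := Pool.Agent.helper18.VZ.rest_small hC hb hV hN
    exact ⟨F, hF, Pool.Agent.helper18.VZ.inv_rest F, h⟩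
  · exact Pool.Agent.helper18.BAS.finite_iff

end Pool.Agent.Results.MP_5bd76e_nt.Basins
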