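import Pool.Agent.helper90.CL.Signed

/-!
# Almost no integer is the length of a cycle of the 3x+1 map

The number of `p ≤ X` such that the 3x+1 map on the integers has a cycle of length `p` is
`O(X ^ (23/24))`.
-/

set_option autoImplicit false

namespace Pool.Agent.Results.MP_5bd76e_nt.LengthDensity

/-- The 3x+1 map on the integers. -/
def T (n : ℤ) : ℤ := if n % 2 = 0 then n / 2 else (3 * n + 1) / 2

/-- `c` is a cycle of `T`: the orbit of an integer `n` with `T^k n = n` for some `k ≥ 1`.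
Its length is its number of elements `c.ncard`. -/
def IsCycle (c : Set ℤ) : Prop :=
  ∃ n : ℤ, (∃ k : ℕ, 1 ≤ k ∧ T^[k] n = n) ∧ c = {m : ℤ | ∃ i : ℕ, T^[i] n = m}

theorem T_eq : T = Pool.Agent.helper62.Col.T := rfl

theorem isCycle_iff (c : Set ℤ) : IsCycle c ↔ Pool.Agent.helper90.CL.IsCycle c := by
  unfold IsCycle Pool.Agent.helper90.CL.IsCycle
  rw [T_eq]
  constructor
  · rintro ⟨n, ⟨k, hk, h⟩, rfl⟩
    exact ⟨n, ⟨k, by omega, h⟩, rfl⟩
  · rintro ⟨n, ⟨k, hk, h⟩, rfl⟩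
    exact ⟨n, ⟨k, by omega, h⟩, rfl⟩

open Pool.Agent.helper90.CL in
/-- At most `C X ^ (23/24)` integers `p ≤ X` are lengths of cycles of the 3x+1 map on `ℤ`. -/
theorem result :
    ∃ C : ℝ, ∀ X : ℝ, 1 ≤ X →
      ({p : ℕ | (∃ c : Set ℤ, IsCycle c ∧ c.ncard = p) ∧ (p : ℝ) ≤ X}.ncard : ℝ) ≤
        C * X ^ (23 / 24 : ℝ) := by
  have hC : IsCycle = Pool.Agent.helper90.CL.IsCycle := by
    funext c
    exact propext (isCycle_iff c)
  rw [hC]
  obtain ⟨C, _, h⟩ := count_lengths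
  exact ⟨C, h⟩

end Pool.Agent.Results.MP_5bd76e_nt.LengthDensity
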