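import Pool.Agent.helper64.CL.Inf

/-!
# MP_5bd76e : for infinitely many `k` the 3x+1 map has at most `k^(19/20)` cycles of length at
most `k`
-/

set_option autoImplicit false

namespace Pool.Agent.Results.MP_5bd76e_nt.SublinearCycles

/-- The 3x+1 map on the integers. -/
def T (n : ℤ) : ℤ := if n % 2 = 0 then n / 2 else (3 * n + 1) / 2

/-- `c` is a cycle of `T`: the orbit of an integer `n` with `T^k n = n` for some `k ≥ 1`.
Its length is its number of elements `c.ncard`. -/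
def IsCycle (c : Set ℤ) : Prop :=
  ∃ n : ℤ, (∃ k : ℕ, 1 ≤ k ∧ T^[k] n = n) ∧ c = {m : ℤ | ∃ i : ℕ, T^[i] n = m}

open Pool.Agent.helper62.Col Pool.Agent.helper63.CL Function in
theorem isCycle_iff (c : Set ℤ) : IsCycle c ↔ ∃ d : Finset ℤ, Cyc d ∧ (d : Set ℤ) = c := by
  constructor
  · rintro ⟨n, ⟨k, hk, h⟩, rfl⟩
    have hn : n ∈ periodicPts Pool.Agent.helper62.Col.T := ⟨k, hk, h⟩
    refine ⟨O n, cyc_O hn, ?_⟩
    rw [coe_O hn]
    rfl
  · rintro ⟨d, ⟨n, ⟨k, hk, h⟩, hd⟩, rfl⟩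
    refine ⟨n, ⟨k, hk, h⟩, ?_⟩
    rw [hd]
    rfl

/-- For infinitely many `k` at most `k ^ (19 / 20)` cycles of `T` have length at most `k`. -/
theorem result : {k : ℕ | {c : Set ℤ | IsCycle c ∧ c.ncard ≤ k}.Finite ∧
    (({c : Set ℤ | IsCycle c ∧ c.ncard ≤ k}.ncard : ℕ) : ℝ) ≤ (k : ℝ) ^ (19 / 20 : ℝ)}.Infinite := by
  rw [Set.infinite_iff_frequently_cofinite, Nat.cofinite_eq_atTop, Filter.frequently_atTop]
  intro K
  obtain ⟨k, hK, hf, hc⟩ := Pool.Agent.helper64.CL.few' K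
  refine ⟨k, hK, ?_⟩
  have e : {c : Set ℤ | IsCycle c ∧ c.ncard ≤ k} =
      (fun d : Finset ℤ => (d : Set ℤ)) '' {d : Finset ℤ | Pool.Agent.helper63.CL.Cyc d ∧ d.card ≤ k} := by
    ext c
    constructor
    · rintro ⟨h1, h2⟩
      obtain ⟨d, hd, rfl⟩ := (isCycle_iff c).1 h1
      rw [Set.ncard_coe_finset] at h2
      exact ⟨d, ⟨hd, h2⟩, rfl⟩
    · rintro ⟨d, ⟨hd, h2⟩, rfl⟩
      refine ⟨(isCycle_iff _).2 ⟨d, hd, rfl⟩, ?_⟩
      show (d : Set ℤ).ncard ≤ k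
      rw [Set.ncard_coe_finset]
      exact h2
  show {c : Set ℤ | IsCycle c ∧ c.ncard ≤ k}.Finite ∧ _
  rw [e]
  exact ⟨hf.image _, by rw [Set.ncard_image_of_injective _ Finset.coe_injective]; exact hc⟩

end Pool.Agent.Results.MP_5bd76e_nt.SublinearCycles
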